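import Mathlib

set_option autoImplicit false

/-! Set mappings of the edges of complete graphs and free copies. -/

namespace Q119.SM

open Finset

/-- `f` is a map from the edges of the complete graph on `Fin N` to its edges which sends every edge
to an edge sharing no vertex with it. (Edges are the non-diagonal unordered pairs; the values of `f`
on the diagonal pairs are irrelevant.) -/
def Disj (N : ℕ) (f : Sym2 (Fin N) → Sym2 (Fin N)) : Prop :=
  ∀ e, ¬ e.IsDiag → ¬ (f e).IsDiag ∧ ∀ v, v ∈ e → v ∉ f e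

/-- The copy of `G` given by the injective map `φ` is `f`-free: no edge of the copy is sent to an edge
of the copy. -/
def Free {n N : ℕ} (G : SimpleGraph (Fin n)) (f : Sym2 (Fin N) → Sym2 (Fin N))
    (φ : Fin n ↪ Fin N) : Prop :=
  ∀ e ∈ G.edgeSet, ∀ e' ∈ G.edgeSet, f (e.map φ) ≠ e'.map φ

/-- Every map `f` as in the definition of `g₀` has an `f`-free copy of `G` in the complete graph on
`N` vertices. -/
def Good {n : ℕ} (G : SimpleGraph (Fin n)) (N : ℕ) : Prop :=
  ∀ f, Disj N f → ∃ φ : Fin n ↪ Fin N, Free G f φ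

/-! ### Counting -/

section
variable {N : ℕ}

/-- ordered pairs of different vertices in `S` outside of `e` -/
def T (S : Finset (Fin N)) (e : Sym2 (Fin N)) : Finset (Fin N × Fin N) :=
  univ.filter fun p => p.1 ∈ S ∧ p.2 ∈ S ∧ p.1 ≠ p.2 ∧ p.1 ∉ e ∧ p.2 ∉ e

theorem card_T (S : Finset (Fin N)) (a b : Fin N) (ha : a ∈ S) (hb : b ∈ S) (hab : a ≠ b) :
    (T S s(a, b)).card = (S.card - 2) * (S.card - 3) := by
  have h : T S s(a, b) = ((S.erase a).erase b).offDiag := by
    ext ⟨x, y⟩
    simp only [T, mem_filter, mem_univ, true_and, mem_offDiag, mem_erase, Sym2.mem_iff, not_or]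
    tauto
  rw [h, Finset.offDiag_card, Finset.card_erase_of_mem (by simp [hb, hab.symm]),
    Finset.card_erase_of_mem ha]
  have : S.card - 1 - 1 = S.card - 2 := by omega
  rw [this]
  rcases Nat.lt_or_ge S.card 3 with h3 | h3
  · have : S.card - 2 = 0 := by omega
    rw [this]; simp
  · obtain ⟨c, hc⟩ : ∃ c, S.card = c + 3 := ⟨S.card - 3, by omega⟩
    rw [hc]
    have e1 : c + 3 - 2 = c + 1 := by omega
    have e2 : c + 3 - 3 = c := by omega
    rw [e1, e2]
    rw [Nat.mul_succ]
    have : (c + 1) * (c + 1) - (c + 1) = (c + 1) * c := by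
      rw [Nat.mul_succ]; omega
    rw [Nat.mul_succ] at this
    omega

/-- the edges inside `S` -/
def inS (S : Finset (Fin N)) : Finset (Sym2 (Fin N)) := S.offDiag.image fun p => s(p.1, p.2)

theorem card_inS (S : Finset (Fin N)) : (inS S).card = S.card.choose 2 := by
  have h := Sym2.card_image_offDiag S
  have e : inS S = image (Function.uncurry Sym2.mk) S.offDiag := by
    rw [inS]; rfl
  rw [e]; exact h

theorem mem_inS (S : Finset (Fin N)) (e : Sym2 (Fin N)) :
    e ∈ inS S ↔ ∃ a b, a ∈ S ∧ b ∈ S ∧ a ≠ b ∧ e = s(a, b) := by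
  simp only [inS, mem_image, mem_offDiag, Prod.exists]
  constructor
  · rintro ⟨a, b, ⟨ha, hb, hab⟩, rfl⟩; exact ⟨a, b, ha, hb, hab, rfl⟩
  · rintro ⟨a, b, ha, hb, hab, rfl⟩; exact ⟨a, b, ⟨ha, hb, hab⟩, rfl⟩

/-- The functions which are bad for `S`. -/
def badF (S : Finset (Fin N)) : Finset (Sym2 (Fin N) → Fin N × Fin N) :=
  Fintype.piFinset fun e => if e ∈ inS S then (T S e)ᶜ else univ

theorem card_badF (S : Finset (Fin N)) (s : ℕ) (hS : S.card = s) :
    (badF S).card = (N * N - (s - 2) * (s - 3)) ^ (s.choose 2)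
      * (N * N) ^ (Fintype.card (Sym2 (Fin N)) - s.choose 2) := by
  rw [badF, Fintype.card_piFinset]
  have h1 : ∀ e : Sym2 (Fin N), (if e ∈ inS S then (T S e)ᶜ else univ).card
      = if e ∈ inS S then N * N - (s - 2) * (s - 3) else N * N := by
    intro e
    by_cases he : e ∈ inS S
    · rw [if_pos he, if_pos he, Finset.card_compl, Fintype.card_prod, Fintype.card_fin]
      obtain ⟨a, b, ha, hb, hab, rfl⟩ := (mem_inS S e).mp he
      rw [card_T S a b ha hb hab, hS]
    · rw [if_neg he, if_neg he, Finset.card_univ, Fintype.card_prod, Fintype.card_fin]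
  rw [Finset.prod_congr rfl fun e _ => h1 e, Finset.prod_ite, Finset.prod_const, Finset.prod_const]
  have h2 : (univ.filter fun e => e ∈ inS S) = inS S := by ext; simp
  have h3 : (univ.filter fun e => e ∉ inS S) = (inS S)ᶜ := by ext; simp
  rw [h2, h3, Finset.card_compl, card_inS, hS]

theorem exists_F (N s : ℕ) (hN : 0 < N)
    (h : N.choose s * (N * N - (s - 2) * (s - 3)) ^ (s.choose 2) < (N * N) ^ (s.choose 2)) :
    ∃ F : Sym2 (Fin N) → Fin N × Fin N, ∀ S : Finset (Fin N), S.card = s →
      ∃ e ∈ inS S, F e ∈ T S e := by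
  classical
  by_contra hcon
  push Not at hcon
  have hcov : (univ : Finset (Sym2 (Fin N) → Fin N × Fin N))
      ⊆ (univ.powersetCard s).biUnion badF := by
    intro F _
    obtain ⟨S, hS, hF⟩ := hcon F
    rw [mem_biUnion]
    refine ⟨S, by rw [mem_powersetCard]; exact ⟨subset_univ _, hS⟩, ?_⟩
    rw [badF, Fintype.mem_piFinset]
    intro e
    by_cases he : e ∈ inS S
    · rw [if_pos he, mem_compl]; exact hF e he
    · rw [if_neg he]; exact mem_univ _
  have h1 := Finset.card_le_card hcov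
  have h2 := h1.trans Finset.card_biUnion_le
  rw [Finset.sum_congr rfl fun S hS => card_badF S s (mem_powersetCard.mp hS).2,
    Finset.sum_const, Finset.card_powersetCard, Finset.card_univ, Finset.card_univ,
    Fintype.card_fin, Fintype.card_fun, Fintype.card_prod, Fintype.card_fin, smul_eq_mul] at h2
  rcases Nat.lt_or_ge (Fintype.card (Sym2 (Fin N))) (s.choose 2) with hlt | hge
  · -- then there is no set of size `s`
    have hchoose : N.choose s = 0 := by
      by_contra hne
      have hsN : s ≤ N := by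
        by_contra hh; exact hne (Nat.choose_eq_zero_of_lt (by omega))
      obtain ⟨S, -, hS⟩ := Finset.exists_subset_card_eq (s := (univ : Finset (Fin N))) (n := s)
        (by rw [Finset.card_univ, Fintype.card_fin]; exact hsN)
      have := Finset.card_le_univ (inS S)
      rw [card_inS, hS] at this
      omega
    rw [hchoose, zero_mul] at h2
    have : 0 < (N * N) ^ Fintype.card (Sym2 (Fin N)) := by positivity
    omega
  · have h3 : (N * N) ^ Fintype.card (Sym2 (Fin N))
        = (N * N) ^ (s.choose 2) * (N * N) ^ (Fintype.card (Sym2 (Fin N)) - s.choose 2) := by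
      rw [← pow_add]; congr 1; omega
    rw [h3, ← mul_assoc] at h2
    have h4 : 0 < (N * N) ^ (Fintype.card (Sym2 (Fin N)) - s.choose 2) := by positivity
    have h5 := Nat.mul_lt_mul_of_pos_right h h4
    omega

/-- For `N ≥ 4` every edge has an edge disjoint from it. -/
theorem exists_disj (hN : 4 ≤ N) (e : Sym2 (Fin N)) : ∃ e' : Sym2 (Fin N), ¬ e'.IsDiag ∧
    ∀ v, v ∈ e → v ∉ e' := by
  induction e using Sym2.ind with
  | _ a b =>
    have hcard : 2 ≤ ((univ.erase a).erase b : Finset (Fin N)).card := by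
      have h1 : (univ.erase a : Finset (Fin N)).card = N - 1 := by
        rw [Finset.card_erase_of_mem (mem_univ _), Finset.card_univ, Fintype.card_fin]
      have h2 := Finset.pred_card_le_card_erase (s := (univ.erase a : Finset (Fin N))) (a := b)
      omega
    obtain ⟨x, hx, y, hy, hxy⟩ := Finset.one_lt_card.mp hcard
    refine ⟨s(x, y), by simpa using hxy, ?_⟩
    simp only [mem_erase, mem_univ, and_true] at hx hy
    intro v hv
    rw [Sym2.mem_iff] at hv ⊢
    rintro (rfl | rfl) <;> rcases hv with rfl | rfl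
    · exact hx.2 rfl
    · exact hx.1 rfl
    · exact hy.2 rfl
    · exact hy.1 rfl

/-- If `G` contains a clique with `s` vertices and the counting condition holds, then some map has no
free copy of `G`. -/
theorem not_good {n : ℕ} (G : SimpleGraph (Fin n)) (N s : ℕ) (hN : 4 ≤ N) (K : Finset (Fin n))
    (hK : K.card = s) (hclique : ∀ a ∈ K, ∀ b ∈ K, a ≠ b → G.Adj a b)
    (h : N.choose s * (N * N - (s - 2) * (s - 3)) ^ (s.choose 2) < (N * N) ^ (s.choose 2)) :
    ¬ Good G N := by
  classical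
  obtain ⟨F, hF⟩ := exists_F N s (by omega) h
  choose d hd using exists_disj hN
  intro hgood
  obtain ⟨f, hf1, hf2⟩ : ∃ f : Sym2 (Fin N) → Sym2 (Fin N),
      (∀ e, ((F e).1 ≠ (F e).2 ∧ (F e).1 ∉ e ∧ (F e).2 ∉ e) → f e = s((F e).1, (F e).2)) ∧
      (∀ e, ¬ ((F e).1 ≠ (F e).2 ∧ (F e).1 ∉ e ∧ (F e).2 ∉ e) → f e = d e) :=
    ⟨fun e => if (F e).1 ≠ (F e).2 ∧ (F e).1 ∉ e ∧ (F e).2 ∉ e then s((F e).1, (F e).2) else d e,
      fun e he => if_pos he, fun e he => if_neg he⟩
  obtain ⟨φ, hφ⟩ := hgood f (by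
      intro e _
      by_cases hc : (F e).1 ≠ (F e).2 ∧ (F e).1 ∉ e ∧ (F e).2 ∉ e
      · rw [hf1 e hc]
        refine ⟨by simpa using hc.1, ?_⟩
        intro v hv hv'
        rw [Sym2.mem_iff] at hv'
        rcases hv' with rfl | rfl
        · exact hc.2.1 hv
        · exact hc.2.2 hv
      · rw [hf2 e hc]; exact hd e)
  obtain ⟨e, he, hFe⟩ := hF (K.map φ) (by rw [Finset.card_map, hK])
  obtain ⟨a, b, ha, hb, hab, rfl⟩ := (mem_inS _ e).mp he
  simp only [mem_map] at ha hb
  obtain ⟨a', ha', rfl⟩ := ha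
  obtain ⟨b', hb', rfl⟩ := hb
  simp only [T, mem_filter, mem_univ, true_and, mem_map] at hFe
  obtain ⟨⟨x, hx, hx'⟩, ⟨y, hy, hy'⟩, hne, hn1, hn2⟩ := hFe
  have hadj : G.Adj a' b' := hclique a' ha' b' hb' (fun h => hab (by rw [h]))
  have hxy : x ≠ y := by
    rintro rfl; exact hne (hx'.symm.trans hy')
  have hadj2 : G.Adj x y := hclique x hx y hy hxy
  have := hφ s(a', b') (by rwa [SimpleGraph.mem_edgeSet]) s(x, y) (by rwa [SimpleGraph.mem_edgeSet])
  apply this
  rw [Sym2.map_mk, Sym2.map_mk, hf1 _ ⟨hne, hn1, hn2⟩, ← hx', ← hy']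

end

end Q119.SM
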