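import Mathlib
import Pool.Agent.Q119.SM.Basic

set_option autoImplicit false

namespace Q119.SM

open Finset

/-- A clique on the first `s` vertices together with an edge from the vertex `0` to every other
vertex. -/
def GG (s n : ℕ) : SimpleGraph (Fin n) where
  Adj u v := u ≠ v ∧ ((u.val < s ∧ v.val < s) ∨ u.val = 0 ∨ v.val = 0)
  symm := ⟨by
    rintro u v ⟨h1, h2⟩
    refine ⟨h1.symm, ?_⟩
    tauto⟩
  loopless := ⟨by rintro u ⟨h1, -⟩; exact h1 rfl⟩

instance (s n : ℕ) : DecidableRel (GG s n).Adj := fun u v =>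
  inferInstanceAs (Decidable (u ≠ v ∧ ((u.val < s ∧ v.val < s) ∨ u.val = 0 ∨ v.val = 0)))

theorem edges_le (s n : ℕ) (hn : 0 < n) (hs : s ≤ n) :
    (GG s n).edgeFinset.card ≤ s.choose 2 + n := by
  classical
  have hsub : (GG s n).edgeFinset ⊆ inS (univ.filter fun v : Fin n => v.val < s)
      ∪ (univ : Finset (Fin n)).image fun v => s(⟨0, hn⟩, v) := by
    intro e
    induction e using Sym2.ind with
    | _ a b =>
      rw [SimpleGraph.mem_edgeFinset, SimpleGraph.mem_edgeSet, mem_union]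
      rintro ⟨hab, h⟩
      rcases h with ⟨ha, hb⟩ | h | h
      · left
        rw [mem_inS]
        exact ⟨a, b, by simpa using ha, by simpa using hb, hab, rfl⟩
      · right
        rw [mem_image]
        exact ⟨b, mem_univ _, by rw [show (⟨0, hn⟩ : Fin n) = a from Fin.ext h.symm]⟩
      · right
        rw [mem_image]
        exact ⟨a, mem_univ _, by
          rw [show (⟨0, hn⟩ : Fin n) = b from Fin.ext h.symm, Sym2.eq_swap]⟩
  have h1 := Finset.card_le_card hsub
  have h2 := h1.trans (Finset.card_union_le _ _)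
  have h3 : (inS (univ.filter fun v : Fin n => v.val < s)).card = s.choose 2 := by
    rw [card_inS]
    congr 1
    rw [Fin.card_filter_val_lt]; omega
  have h4 : ((univ : Finset (Fin n)).image fun v => s((⟨0, hn⟩ : Fin n), v)).card ≤ n := by
    refine Finset.card_image_le.trans ?_
    rw [Finset.card_univ, Fintype.card_fin]
  omega

theorem connected (s n : ℕ) (hn : 0 < n) : (GG s n).Connected := by
  have : Nonempty (Fin n) := ⟨⟨0, hn⟩⟩
  have h0 : ∀ v : Fin n, (GG s n).Reachable ⟨0, hn⟩ v := by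
    intro v
    by_cases hv : (⟨0, hn⟩ : Fin n) = v
    · rw [hv]
    · have : (GG s n).Adj ⟨0, hn⟩ v := ⟨hv, Or.inr (Or.inl rfl)⟩
      exact this.reachable
  exact ⟨fun u v => (h0 u).symm.trans (h0 v)⟩

theorem no_isolated (s n : ℕ) (hn : 2 ≤ n) (v : Fin n) : ∃ w, (GG s n).Adj v w := by
  by_cases hv : v.val = 0
  · refine ⟨⟨1, by omega⟩, ?_, Or.inr (Or.inl hv)⟩
    intro h; rw [h] at hv; simp at hv
  · exact ⟨⟨0, by omega⟩, fun h => hv (by rw [h]), Or.inr (Or.inr rfl)⟩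

/-- The counting condition for `N ≤ B`. -/
theorem cond (s N : ℕ) (B : ℝ) (hs : 6 ≤ s) (hN : 0 < N) (hNB : (N : ℝ) ≤ B)
    (h : Real.log B < (s : ℝ) ^ 3 / (16 * B ^ 2)) :
    N.choose s * (N * N - (s - 2) * (s - 3)) ^ (s.choose 2) < (N * N) ^ (s.choose 2) := by
  rcases Nat.lt_or_ge N s with hlt | hge
  · rw [Nat.choose_eq_zero_of_lt hlt, zero_mul]; positivity
  have hNpos : (0 : ℝ) < N := by exact_mod_cast hN
  have hBpos : 0 < B := lt_of_lt_of_le hNpos hNB
  have hq : (s - 2) * (s - 3) ≤ N * N := Nat.mul_le_mul (by omega) (by omega)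
  have hsR : (6 : ℝ) ≤ s := by exact_mod_cast hs
  have key : ((N.choose s : ℕ) : ℝ) * ((N : ℝ) * N - (s - 2) * (s - 3)) ^ (s.choose 2)
      < ((N : ℝ) * N) ^ (s.choose 2) := by
    have h1 : ((N.choose s : ℕ) : ℝ) ≤ B ^ s := by
      calc ((N.choose s : ℕ) : ℝ) ≤ ((N ^ s : ℕ) : ℝ) := by
            exact_mod_cast Nat.choose_le_pow N s
        _ = (N : ℝ) ^ s := by push_cast; rfl
        _ ≤ B ^ s := by gcongr
    have hfac : (N : ℝ) * N - (s - 2) * (s - 3)
        = ((N : ℝ) * N) * (1 - (s - 2) * (s - 3) / (N * N)) := by field_simp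
    set x : ℝ := (s - 2) * (s - 3) / (N * N) with hx
    have hx1 : x ≤ 1 := by
      rw [hx, div_le_one (by positivity)]
      have := hge
      have hNs : (s : ℝ) ≤ N := by exact_mod_cast hge
      nlinarith
    have hxB : ((s : ℝ) - 2) * (s - 3) / B ^ 2 ≤ x := by
      rw [hx]
      apply div_le_div_of_nonneg_left
      · nlinarith
      · positivity
      · nlinarith
    rw [hfac, mul_pow, ← mul_assoc, mul_comm ((N.choose s : ℕ) : ℝ), mul_assoc]
    have hP : 0 < ((N : ℝ) * N) ^ (s.choose 2) := by positivity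
    rw [mul_lt_iff_lt_one_right hP]
    have h2 : (1 - x) ^ (s.choose 2) ≤ Real.exp (-(x * (s.choose 2 : ℕ))) := by
      have h3 : 1 - x ≤ Real.exp (-x) := by
        have := Real.add_one_le_exp (-x); linarith
      calc (1 - x) ^ (s.choose 2) ≤ (Real.exp (-x)) ^ (s.choose 2) := by
            apply pow_le_pow_left₀ (by linarith) h3
        _ = Real.exp (-(x * (s.choose 2 : ℕ))) := by
            rw [← Real.exp_nat_mul]; congr 1; ring
    have hch : ((s.choose 2 : ℕ) : ℝ) = s * (s - 1) / 2 := by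
      rw [Nat.cast_choose_two]
    have h4 : (s : ℝ) * Real.log B < x * (s.choose 2 : ℕ) := by
      have h5 : (s : ℝ) * Real.log B < s * ((s : ℝ) ^ 3 / (16 * B ^ 2)) := by
        apply mul_lt_mul_of_pos_left h (by linarith)
      have h6 : (s : ℝ) * ((s : ℝ) ^ 3 / (16 * B ^ 2))
          ≤ ((s : ℝ) - 2) * (s - 3) / B ^ 2 * (s * (s - 1) / 2) := by
        rw [show (s : ℝ) * ((s : ℝ) ^ 3 / (16 * B ^ 2)) = (s * (s ^ 3 / 16)) / B ^ 2 by
          field_simp]
        rw [div_mul_eq_mul_div]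
        apply div_le_div_of_nonneg_right _ (by positivity)
        have h7 : (s : ℝ) ^ 3 / 16 ≤ (s - 1) * (s - 2) * (s - 3) / 2 := by
          have e1 : (s : ℝ) / 2 ≤ s - 1 := by linarith
          have e2 : (s : ℝ) / 2 ≤ s - 2 := by linarith
          have e3 : (s : ℝ) / 2 ≤ s - 3 := by linarith
          have e4 : (s : ℝ) / 2 * (s / 2) ≤ (s - 1) * (s - 2) := by
            apply mul_le_mul e1 e2 (by linarith) (by linarith)
          have e5 : (s : ℝ) / 2 * (s / 2) * (s / 2) ≤ (s - 1) * (s - 2) * (s - 3) := by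
            apply mul_le_mul e4 e3 (by linarith) (by nlinarith)
          nlinarith
        nlinarith
      have h8 : ((s : ℝ) - 2) * (s - 3) / B ^ 2 * (s * (s - 1) / 2) ≤ x * (s.choose 2 : ℕ) := by
        rw [hch]
        apply mul_le_mul_of_nonneg_right hxB
        nlinarith
      linarith
    calc ((N.choose s : ℕ) : ℝ) * (1 - x) ^ (s.choose 2)
        ≤ B ^ s * Real.exp (-(x * (s.choose 2 : ℕ))) := by
          apply mul_le_mul h1 h2 (by apply pow_nonneg; linarith) (by positivity)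
      _ = Real.exp (s * Real.log B - x * (s.choose 2 : ℕ)) := by
          rw [sub_eq_add_neg, Real.exp_add, ← Real.rpow_natCast, Real.rpow_def_of_pos hBpos]
          congr 2; ring
      _ < 1 := by rw [Real.exp_lt_one_iff]; linarith
  have h9 : (((N.choose s * (N * N - (s - 2) * (s - 3)) ^ (s.choose 2) : ℕ)) : ℝ)
      < (((N * N) ^ (s.choose 2) : ℕ) : ℝ) := by
    rw [Nat.cast_mul, Nat.cast_pow, Nat.cast_sub hq, Nat.cast_mul, Nat.cast_mul,
      Nat.cast_sub (by omega : 2 ≤ s), Nat.cast_sub (by omega : 3 ≤ s), Nat.cast_pow, Nat.cast_mul]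
    exact key
  exact_mod_cast h9

theorem main (C : ℝ) : ∃ (n : ℕ) (G : SimpleGraph (Fin n)), G.Connected ∧ (∀ v, ∃ w, G.Adj v w) ∧
    ∀ N : ℕ, 4 ≤ N → Good G N → C * ((G.edgeSet.ncard : ℝ) / Real.sqrt n + n) < N := by
  classical
  -- reduce to large `C`
  obtain ⟨D, hD1, hDC⟩ : ∃ D : ℝ, 1 ≤ D ∧ C ≤ D := ⟨max C 1, le_max_right _ _, le_max_left _ _⟩
  -- choose `k`
  set L : ℝ := Real.log (5 / 2 * D) with hL
  have hL0 : 0 ≤ L := by rw [hL]; apply Real.log_nonneg; linarith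
  obtain ⟨j, hj⟩ := exists_nat_gt (100 * D ^ 2 * (8 + L))
  have hjpos : (0 : ℝ) < j := lt_of_le_of_lt (by positivity) hj
  have hj1 : 1 < j := by
    have : (1 : ℝ) < j := by nlinarith
    exact_mod_cast this
  set k : ℕ := j ^ 2 with hk
  have hkR : (k : ℝ) = (j : ℝ) ^ 2 := by rw [hk]; push_cast; rfl
  have hk2 : 4 ≤ k := by rw [hk]; nlinarith
  have hkR1 : (4 : ℝ) ≤ k := by exact_mod_cast hk2
  have hlog : Real.log (5 / 2 * D * (k : ℝ) ^ 4) < (k : ℝ) / (100 * D ^ 2) := by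
    rw [Real.log_mul (by positivity) (by positivity), Real.log_pow, ← hL, hkR, Real.log_pow]
    have h1 : Real.log j ≤ j := by
      have := Real.log_le_sub_one_of_pos hjpos; linarith
    have hj1R : (1 : ℝ) ≤ j := by exact_mod_cast hj1.le
    rw [lt_div_iff₀ (by positivity)]
    push_cast
    have h2 : L + 4 * (2 * Real.log j) ≤ (8 + L) * j := by nlinarith
    have h3 : (L + 4 * (2 * Real.log j)) * (100 * D ^ 2) ≤ (100 * D ^ 2 * (8 + L)) * j := by
      nlinarith [sq_nonneg D]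
    nlinarith
  refine ⟨k ^ 4, GG (k ^ 3) (k ^ 4), connected _ _ (by positivity),
    no_isolated _ _ (by nlinarith [Nat.pow_le_pow_left hk2 4]), ?_⟩
  intro N hN hgood
  by_contra hcon
  push Not at hcon
  have hpow : k ^ 3 ≤ k ^ 4 := Nat.pow_le_pow_right (by omega) (by norm_num)
  -- the bound for the right-hand side
  have hB : (N : ℝ) ≤ 5 / 2 * D * (k : ℝ) ^ 4 := by
    refine hcon.trans ?_
    have hm : ((GG (k ^ 3) (k ^ 4)).edgeSet.ncard : ℝ) ≤ (k : ℝ) ^ 6 / 2 + (k : ℝ) ^ 4 := by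
      have h1 := edges_le (k ^ 3) (k ^ 4) (by positivity) hpow
      have h2 : (GG (k ^ 3) (k ^ 4)).edgeSet.ncard = (GG (k ^ 3) (k ^ 4)).edgeFinset.card := by
        rw [← SimpleGraph.coe_edgeFinset, Set.ncard_coe_finset]
      rw [h2]
      have h3 : (((GG (k ^ 3) (k ^ 4)).edgeFinset.card : ℕ) : ℝ)
          ≤ (((k ^ 3).choose 2 : ℕ) : ℝ) + ((k ^ 4 : ℕ) : ℝ) := by exact_mod_cast h1
      rw [Nat.cast_choose_two] at h3
      push_cast at h3
      nlinarith [pow_pos (by linarith : (0 : ℝ) < k) 3]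
    have hsqrt : Real.sqrt ((k ^ 4 : ℕ) : ℝ) = (k : ℝ) ^ 2 := by
      push_cast
      rw [show (k : ℝ) ^ 4 = ((k : ℝ) ^ 2) ^ 2 by ring, Real.sqrt_sq (by positivity)]
    rw [hsqrt]
    have hmdiv : ((GG (k ^ 3) (k ^ 4)).edgeSet.ncard : ℝ) / (k : ℝ) ^ 2
        ≤ (k : ℝ) ^ 4 / 2 + (k : ℝ) ^ 2 := by
      rw [div_le_iff₀ (by positivity)]
      calc _ ≤ _ := hm
        _ = _ := by ring
    push_cast
    have hk24 : (k : ℝ) ^ 2 ≤ (k : ℝ) ^ 4 := by
      apply pow_le_pow_right₀ (by linarith) (by norm_num)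
    have hnn : 0 ≤ ((GG (k ^ 3) (k ^ 4)).edgeSet.ncard : ℝ) / (k : ℝ) ^ 2 + (k : ℝ) ^ 4 := by
      positivity
    calc C * (((GG (k ^ 3) (k ^ 4)).edgeSet.ncard : ℝ) / (k : ℝ) ^ 2 + (k : ℝ) ^ 4)
        ≤ D * (((GG (k ^ 3) (k ^ 4)).edgeSet.ncard : ℝ) / (k : ℝ) ^ 2 + (k : ℝ) ^ 4) := by
          apply mul_le_mul_of_nonneg_right hDC hnn
      _ ≤ D * (5 / 2 * (k : ℝ) ^ 4) := by
          apply mul_le_mul_of_nonneg_left _ (by linarith)
          linarith
      _ = _ := by ring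
  have hs6 : 6 ≤ k ^ 3 := by nlinarith [Nat.pow_le_pow_left hk2 3]
  have hcond := cond (k ^ 3) N _ hs6 (by omega) hB (by
    refine hlog.trans_le ?_
    push_cast
    rw [div_le_div_iff₀ (by positivity) (by positivity)]
    have : (k : ℝ) * (16 * (5 / 2 * D * (k : ℝ) ^ 4) ^ 2)
        = ((k : ℝ) ^ 3) ^ 3 * (100 * D ^ 2) := by ring
    rw [this])
  refine not_good (GG (k ^ 3) (k ^ 4)) N (k ^ 3) hN (univ.filter fun v => v.val < k ^ 3) ?_ ?_
    hcond hgood
  · rw [Fin.card_filter_val_lt]; omega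
  · intro a ha b hb hab
    simp only [mem_filter, mem_univ, true_and] at ha hb
    exact ⟨hab, Or.inl ⟨ha, hb⟩⟩

end Q119.SM
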